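import Pool.Agent.Helper73.ETSP.Defs

/-!
# A function computed by a TM2 machine in polynomial time is `PolyTime`

The configurations of a machine with finitely many labels, states and stacks are encoded by
natural numbers and lists of natural numbers, the steps are polynomial time functions, and the
iteration of the steps is `PolyTime.iterate`.
-/

set_option autoImplicit false

namespace Pool.Agent.Helper73.ETSP

open N68a2faeb Pool.Agent.Helper36.PT

namespace TM

/-! ### Finite families of polynomial time functions -/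

theorem finFam {α β : Type} [Enc α] [Enc β] : ∀ (N : ℕ) (F : ℕ → α → β)
    (_ : ∀ i, PolyTime (F i)) (_ : ∀ i, N ≤ i → F i = F N) {x : α → ℕ} (_ : PolyTime x),
    PolyTime (fun a => F (x a) a) := by
  intro N
  induction N with
  | zero =>
    intro F hF hc x _
    exact (hF 0).congr fun a => by rw [hc (x a) (Nat.zero_le _)]
  | succ N ih =>
    intro F hF hc x hx
    have h1 : PolyTime (fun a => x a - 1) := by fun_prop
    have h2 := ih (fun i => F (i + 1)) (fun i => hF (i + 1))
      (fun i hi => hc (i + 1) (by omega)) h1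
    have h3 : PolyTime (fun a => x a = 0) := by fun_prop
    have h4 : PolyTime (fun a => if x a = 0 then F 0 a else F (x a - 1 + 1) a) :=
      PolyTime.ite' h3 (hF 0) h2
    refine h4.congr fun a => ?_
    by_cases h : x a = 0
    · rw [if_pos h, h]
    · rw [if_neg h, Nat.sub_add_cancel (Nat.pos_of_ne_zero h)]

/-- functions of a number which are constant from `N` on -/
theorem finFun {β : Type} [Enc β] (N : ℕ) (g : ℕ → β) (hc : ∀ i, N ≤ i → g i = g N) :
    PolyTime g :=
  finFam (α := ℕ) N (fun i _ => g i) (fun i => PolyTime.const _)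
    (fun i hi => by rw [hc i hi]) PolyTime.id

/-- functions of two numbers which are constant from `N` (`M`) on -/
theorem finFun2 {β : Type} [Enc β] (N M : ℕ) (g : ℕ → ℕ → β) (hc : ∀ i, N ≤ i → g i = g N)
    (hd : ∀ i j, M ≤ j → g i j = g i M) : PolyTime (fun p : ℕ × ℕ => g p.1 p.2) :=
  finFam (α := ℕ × ℕ) N (fun i p => g i p.2)
    (fun i => (finFun M (g i) (hd i)).comp PolyTime.snd)
    (fun i hi => by rw [hc i hi]) PolyTime.fst

/-! ### Encoding of configurations -/

open Turing.TM2 in
/-- Codes for the stacks, states, labels and symbols of a machine. -/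
structure Data (K : Type) (Γ : K → Type) (Λ σ : Type) where
  nK : ℕ
  iK : K → ℕ
  iK_lt : ∀ k, iK k < nK
  iK_inj : Function.Injective iK
  nS : ℕ
  iS : σ → ℕ
  iS_le : ∀ v, iS v ≤ nS
  dS : ℕ → σ
  dS_iS : ∀ v, dS (iS v) = v
  dS_const : ∀ n, nS ≤ n → dS n = dS nS
  nL : ℕ
  iL : Λ → ℕ
  iL_le : ∀ v, iL v ≤ nL
  dL : ℕ → Λ
  dL_iL : ∀ v, dL (iL v) = v
  dL_const : ∀ n, nL ≤ n → dL n = dL nL
  nG : ℕ
  iG : ∀ k, Γ k → ℕ
  iG_le : ∀ k s, iG k s ≤ nG
  dG : ∀ k, ℕ → Option (Γ k)
  good : ∀ k, Γ k → Prop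
  dG_iG : ∀ k s, good k s → dG k (iG k s) = some s
  dG_const : ∀ k n, nG ≤ n → dG k n = dG k nG

section

variable {K : Type} [DecidableEq K] {Γ : K → Type} {Λ σ : Type} (D : Data K Γ Λ σ)

/-- the states of the simulation: code of the label, code of the state, codes of the stacks -/
abbrev Code : Type := ℕ × ℕ × List (List ℕ)

/-- the code of the first symbol of a stack -/
def hd (st : List (List ℕ)) (i : ℕ) : ℕ := ((st.getD i []).map Nat.succ).headD 0

/-- the symbol with a given code -/
def Data.dO (k : K) (h : ℕ) : Option (Γ k) := if h = 0 then none else D.dG k (h - 1)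

/-- the execution of a statement on the codes -/
def Data.run : Turing.TM2.Stmt Γ Λ σ → ℕ → List (List ℕ) → Code
  | .push k f q, v, st =>
      Data.run q v (st.set (D.iK k) (D.iG k (f (D.dS v)) :: st.getD (D.iK k) []))
  | .peek k f q, v, st => Data.run q (D.iS (f (D.dS v) (D.dO k (hd st (D.iK k))))) st
  | .pop k f q, v, st => Data.run q (D.iS (f (D.dS v) (D.dO k (hd st (D.iK k)))))
      (st.set (D.iK k) (st.getD (D.iK k) []).tail)
  | .load f q, v, st => Data.run q (D.iS (f (D.dS v))) st
  | .branch f q₁ q₂, v, st => if f (D.dS v) = true then Data.run q₁ v st else Data.run q₂ v st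
  | .goto f, v, st => (D.iL (f (D.dS v)) + 1, v, st)
  | .halt, v, st => (0, v, st)

/-- one step on the codes -/
def Data.stp (m : Λ → Turing.TM2.Stmt Γ Λ σ) (c : Code) : Code :=
  if c.1 = 0 then c else D.run (m (D.dL (c.1 - 1))) c.2.1 c.2.2

theorem hd_poly (i : ℕ) : PolyTime (fun p : ℕ × List (List ℕ) => hd p.2 i) := by
  unfold hd
  fun_prop

theorem Data.f1_poly {β : Type} [Enc β] (g : σ → β) :
    PolyTime (fun p : ℕ × List (List ℕ) => g (D.dS p.1)) := by
  have h := finFun D.nS (fun v => g (D.dS v)) (fun i hi => by rw [D.dS_const i hi])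
  exact h.comp (PolyTime.fst)

theorem Data.dO_const (k : K) (n : ℕ) (hn : D.nG + 1 ≤ n) : D.dO k n = D.dO k (D.nG + 1) := by
  unfold Data.dO
  rw [if_neg (by omega), if_neg (by omega), D.dG_const k (n - 1) (by omega), Nat.add_sub_cancel]

theorem Data.f2_poly (k : K) (f : σ → Option (Γ k) → σ) : PolyTime
    (fun p : ℕ × List (List ℕ) => D.iS (f (D.dS p.1) (D.dO k (hd p.2 (D.iK k))))) := by
  have h := finFun2 D.nS (D.nG + 1) (fun v h => D.iS (f (D.dS v) (D.dO k h)))
    (fun i hi => by rw [D.dS_const i hi]) (fun i j hj => by rw [D.dO_const k j hj])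
  exact h.comp (PolyTime.fst.pair (hd_poly (D.iK k)))

theorem Data.run_poly (q : Turing.TM2.Stmt Γ Λ σ) :
    PolyTime (fun p : ℕ × List (List ℕ) => D.run q p.1 p.2) := by
  induction q with
  | push k f q ih =>
    have h1 := D.f1_poly (fun v => D.iG k (f v))
    have h2 : PolyTime (fun p : ℕ × List (List ℕ) => (p.1,
        p.2.set (D.iK k) (D.iG k (f (D.dS p.1)) :: p.2.getD (D.iK k) []))) := by fun_prop
    exact ih.comp h2
  | peek k f q ih =>
    have h1 := D.f2_poly k f
    have h2 : PolyTime (fun p : ℕ × List (List ℕ) =>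
        (D.iS (f (D.dS p.1) (D.dO k (hd p.2 (D.iK k)))), p.2)) := by fun_prop
    exact ih.comp h2
  | pop k f q ih =>
    have h1 := D.f2_poly k f
    have h2 : PolyTime (fun p : ℕ × List (List ℕ) =>
        (D.iS (f (D.dS p.1) (D.dO k (hd p.2 (D.iK k)))),
          p.2.set (D.iK k) (p.2.getD (D.iK k) []).tail)) := by fun_prop
    exact ih.comp h2
  | load f q ih =>
    have h1 := D.f1_poly (fun v => D.iS (f v))
    have h2 : PolyTime (fun p : ℕ × List (List ℕ) => (D.iS (f (D.dS p.1)), p.2)) := by fun_prop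
    exact ih.comp h2
  | branch f q₁ q₂ ih₁ ih₂ =>
    have h1 := D.f1_poly f
    exact PolyTime.ite' (PolyTime.pBool h1) ih₁ ih₂
  | goto f =>
    have h1 := D.f1_poly (fun v => D.iL (f v) + 1)
    have h2 : PolyTime (fun p : ℕ × List (List ℕ) => (D.iL (f (D.dS p.1)) + 1, p.1, p.2)) := by
      fun_prop
    exact h2
  | halt =>
    have h2 : PolyTime (fun p : ℕ × List (List ℕ) => ((0 : ℕ), p.1, p.2)) := by fun_prop
    exact h2

theorem Data.stp_poly (m : Λ → Turing.TM2.Stmt Γ Λ σ) : PolyTime (D.stp m) := by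
  have h1 : PolyTime (fun c : Code => D.run (m (D.dL (c.1 - 1))) c.2.1 c.2.2) := by
    have hx : PolyTime (fun c : Code => c.1 - 1) := by fun_prop
    have h2 := finFam (α := Code) D.nL (fun i c => D.run (m (D.dL i)) c.2.1 c.2.2)
      (fun i => (D.run_poly (m (D.dL i))).comp (f := fun c : Code => c.2) PolyTime.snd)
      (fun i hi => by rw [D.dL_const i hi]) hx
    exact h2
  have h3 : PolyTime (fun c : Code => c.1 = 0) := by fun_prop
  exact PolyTime.ite' h3 PolyTime.id h1

/-! ### Sizes -/

theorem esz_set_cons (c : ℕ) : ∀ (st : List (List ℕ)) (i : ℕ),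
    esz (st.set i (c :: st.getD i [])) ≤ esz st + 2 * (2 * c + 1) := by
  intro st
  induction st with
  | nil => intro i; simp
  | cons s st ih =>
    intro i
    cases i with
    | zero =>
      simp only [List.set_cons_zero, List.getD_cons_zero]
      rw [esz_cons, esz_cons, esz_cons, esz_nat]
      omega
    | succ i =>
      simp only [List.set_cons_succ, List.getD_cons_succ]
      rw [esz_cons, esz_cons]
      have := ih i
      omega

theorem esz_set_tail : ∀ (st : List (List ℕ)) (i : ℕ),
    esz (st.set i (st.getD i []).tail) ≤ esz st := by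
  intro st
  induction st with
  | nil => intro i; simp
  | cons s st ih =>
    intro i
    cases i with
    | zero =>
      simp only [List.set_cons_zero, List.getD_cons_zero]
      rw [esz_cons, esz_cons]
      have : esz s.tail ≤ esz s := by
        cases s with
        | nil => simp
        | cons a s => rw [List.tail_cons, esz_cons]; omega
      omega
    | succ i =>
      simp only [List.set_cons_succ, List.getD_cons_succ]
      rw [esz_cons, esz_cons]
      have := ih i
      omega

/-- the weight of a code -/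
def wt (c : Code) : ℕ := 2 * c.1 + 2 * c.2.1 + esz c.2.2

theorem Data.run_wt (q : Turing.TM2.Stmt Γ Λ σ) : ∃ C : ℕ, ∀ v st,
    wt (D.run q v st) ≤ 2 * v + esz st + C := by
  induction q with
  | push k f q ih =>
    obtain ⟨C, hC⟩ := ih
    refine ⟨C + 2 * (2 * D.nG + 1), fun v st => ?_⟩
    have h1 := hC v (st.set (D.iK k) (D.iG k (f (D.dS v)) :: st.getD (D.iK k) []))
    have h2 := esz_set_cons (D.iG k (f (D.dS v))) st (D.iK k)
    have h3 := D.iG_le k (f (D.dS v))
    change wt (D.run q v (st.set (D.iK k) (D.iG k (f (D.dS v)) :: st.getD (D.iK k) []))) ≤ _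
    omega
  | peek k f q ih =>
    obtain ⟨C, hC⟩ := ih
    refine ⟨C + 2 * D.nS, fun v st => ?_⟩
    have h1 := hC (D.iS (f (D.dS v) (D.dO k (hd st (D.iK k))))) st
    have h3 := D.iS_le (f (D.dS v) (D.dO k (hd st (D.iK k))))
    change wt (D.run q (D.iS (f (D.dS v) (D.dO k (hd st (D.iK k))))) st) ≤ _
    omega
  | pop k f q ih =>
    obtain ⟨C, hC⟩ := ih
    refine ⟨C + 2 * D.nS, fun v st => ?_⟩
    have h1 := hC (D.iS (f (D.dS v) (D.dO k (hd st (D.iK k)))))
      (st.set (D.iK k) (st.getD (D.iK k) []).tail)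
    have h2 := esz_set_tail st (D.iK k)
    have h3 := D.iS_le (f (D.dS v) (D.dO k (hd st (D.iK k))))
    change wt (D.run q (D.iS (f (D.dS v) (D.dO k (hd st (D.iK k)))))
      (st.set (D.iK k) (st.getD (D.iK k) []).tail)) ≤ _
    omega
  | load f q ih =>
    obtain ⟨C, hC⟩ := ih
    refine ⟨C + 2 * D.nS, fun v st => ?_⟩
    have h1 := hC (D.iS (f (D.dS v))) st
    have h3 := D.iS_le (f (D.dS v))
    change wt (D.run q (D.iS (f (D.dS v))) st) ≤ _
    omega
  | branch f q₁ q₂ ih₁ ih₂ =>
    obtain ⟨C₁, h₁⟩ := ih₁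
    obtain ⟨C₂, h₂⟩ := ih₂
    refine ⟨C₁ + C₂, fun v st => ?_⟩
    have k1 := h₁ v st
    have k2 := h₂ v st
    change wt (if f (D.dS v) = true then D.run q₁ v st else D.run q₂ v st) ≤ _
    split_ifs <;> omega
  | goto f =>
    refine ⟨2 * (D.nL + 1), fun v st => ?_⟩
    have h3 := D.iL_le (f (D.dS v))
    change 2 * (D.iL (f (D.dS v)) + 1) + 2 * v + esz st ≤ _
    omega
  | halt =>
    refine ⟨0, fun v st => ?_⟩
    change 2 * 0 + 2 * v + esz st ≤ _
    omega

theorem Data.stp_wt (m : Λ → Turing.TM2.Stmt Γ Λ σ) : ∃ C : ℕ, ∀ c,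
    wt (D.stp m c) ≤ wt c + C := by
  choose C hC using fun i => D.run_wt (m (D.dL i))
  refine ⟨(Finset.range (D.nL + 1)).sup C, fun c => ?_⟩
  unfold Data.stp
  split_ifs with h
  · omega
  · have h1 : ∃ i ≤ D.nL, D.dL (c.1 - 1) = D.dL i := by
      by_cases h2 : c.1 - 1 ≤ D.nL
      · exact ⟨_, h2, rfl⟩
      · exact ⟨D.nL, le_rfl, D.dL_const _ (by omega)⟩
    obtain ⟨i, hi, he⟩ := h1
    rw [he]
    have h2 := hC i c.2.1 c.2.2
    have h3 : C i ≤ (Finset.range (D.nL + 1)).sup C :=
      Finset.le_sup (Finset.mem_range.2 (by omega))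
    unfold wt at h2 ⊢
    omega

theorem Data.iter_wt (m : Λ → Turing.TM2.Stmt Γ Λ σ) {C : ℕ} (hC : ∀ c, wt (D.stp m c) ≤ wt c + C)
    (c : Code) (i : ℕ) : wt ((D.stp m)^[i] c) ≤ wt c + i * C := by
  induction i with
  | zero => simp
  | succ i ih =>
    rw [Function.iterate_succ_apply', Nat.succ_mul]
    have := hC ((D.stp m)^[i] c)
    omega

theorem esz_code (c : Code) : esz c = wt c + 2 := by
  obtain ⟨l, v, st⟩ := c
  unfold wt
  rw [esz_pair, esz_pair, esz_nat, esz_nat]
  simp only
  omega

theorem Data.iter_poly (m : Λ → Turing.TM2.Stmt Γ Λ σ) {α : Type} [Enc α] {n : α → ℕ}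
    {g : α → Code} (hn : PolyTime n) (hg : PolyTime g) :
    PolyTime (fun a => (D.stp m)^[n a] (g a)) := by
  obtain ⟨C, hC⟩ := D.stp_wt m
  refine PolyTime.iterate (h := fun p : α × Code => D.stp m p.2) hn hg
    ((D.stp_poly m).comp PolyTime.snd) ⟨fun a => esz (g a) + n a * C,
      hg.bdd.add ((bdd_nat hn).mul (Bdd.const C)), ?_⟩
  intro a i hi
  change esz ((D.stp m)^[i] (g a)) ≤ esz (g a) + n a * C
  rw [esz_code, esz_code]
  have h1 := D.iter_wt m hC (g a) i
  have h2 : i * C ≤ n a * C := Nat.mul_le_mul_right _ hi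
  omega

/-! ### Correctness -/

/-- the codes of the stacks: the list `st` represents the stacks `S` -/
def Data.Rep (st : List (List ℕ)) (S : ∀ k, List (Γ k)) : Prop :=
  st.length = D.nK ∧ (∀ k, st.getD (D.iK k) [] = (S k).map (D.iG k)) ∧
    ∀ k, ∀ s ∈ S k, D.good k s

/-- all the symbols which are pushed by a statement are good -/
def Ok (good : ∀ k, Γ k → Prop) : Turing.TM2.Stmt Γ Λ σ → Prop
  | .push k f q => (∀ v, good k (f v)) ∧ Ok good q
  | .peek _ _ q => Ok good q
  | .pop _ _ q => Ok good q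
  | .load _ q => Ok good q
  | .branch _ q₁ q₂ => Ok good q₁ ∧ Ok good q₂
  | .goto _ => True
  | .halt => True

theorem Data.Rep.set {st : List (List ℕ)} {S : ∀ k, List (Γ k)} (h : D.Rep st S) (k : K)
    (T : List (Γ k)) (hT : ∀ s ∈ T, D.good k s) :
    D.Rep (st.set (D.iK k) (T.map (D.iG k))) (Function.update S k T) := by
  obtain ⟨h1, h2, h3⟩ := h
  refine ⟨by rw [List.length_set, h1], fun k' => ?_, fun k' s hs => ?_⟩
  · by_cases hk : k' = k
    · subst hk
      rw [Function.update_self, List.getD_eq_getElem?_getD, List.getElem?_set_self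
        (by rw [h1]; exact D.iK_lt k')]
      rfl
    · rw [Function.update_of_ne hk, ← h2 k', List.getD_eq_getElem?_getD,
        List.getD_eq_getElem?_getD, List.getElem?_set_ne (fun h => hk (D.iK_inj h.symm))]
  · by_cases hk : k' = k
    · subst hk
      rw [Function.update_self] at hs
      exact hT s hs
    · rw [Function.update_of_ne hk] at hs
      exact h3 k' s hs

theorem Data.Rep.hd {st : List (List ℕ)} {S : ∀ k, List (Γ k)} (h : D.Rep st S) (k : K) :
    D.dO k (TM.hd st (D.iK k)) = (S k).head? := by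
  obtain ⟨h1, h2, h3⟩ := h
  unfold TM.hd
  rw [h2 k]
  have h4 := h3 k
  generalize S k = T at h4 ⊢
  cases T with
  | nil => simp [Data.dO]
  | cons s T =>
    have := D.dG_iG k s (h4 s (by simp))
    simp [Data.dO, this]

/-- the code of the label -/
def Data.lab : Option Λ → ℕ
  | none => 0
  | some l => D.iL l + 1

/-- the code represents the configuration -/
def Data.RepC (c : Code) (x : Turing.TM2.Cfg Γ Λ σ) : Prop :=
  c.1 = D.lab x.l ∧ c.2.1 = D.iS x.var ∧ D.Rep c.2.2 x.stk

theorem Data.run_rep (q : Turing.TM2.Stmt Γ Λ σ) (hq : Ok D.good q) : ∀ (v : σ)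
    (st : List (List ℕ)) (S : ∀ k, List (Γ k)), D.Rep st S →
    D.RepC (D.run q (D.iS v) st) (Turing.TM2.stepAux q v S) := by
  induction q with
  | push k f q ih =>
    intro v st S hS
    have h1 := hS.set D k (f v :: S k) (by
      intro s hs
      rcases List.mem_cons.1 hs with rfl | hs
      · exact hq.1 v
      · exact hS.2.2 k s hs)
    have h2 := ih hq.2 v _ _ h1
    rw [List.map_cons, ← hS.2.1 k] at h2
    change D.RepC (D.run q (D.iS v) (st.set (D.iK k) (D.iG k (f (D.dS (D.iS v))) ::
      st.getD (D.iK k) []))) _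
    rw [D.dS_iS]
    exact h2
  | peek k f q ih =>
    intro v st S hS
    change D.RepC (D.run q (D.iS (f (D.dS (D.iS v)) (D.dO k (TM.hd st (D.iK k))))) st) _
    rw [D.dS_iS, hS.hd]
    exact ih hq _ _ _ hS
  | pop k f q ih =>
    intro v st S hS
    change D.RepC (D.run q (D.iS (f (D.dS (D.iS v)) (D.dO k (TM.hd st (D.iK k)))))
      (st.set (D.iK k) (st.getD (D.iK k) []).tail)) _
    rw [D.dS_iS, hS.hd]
    have h1 := hS.set D k (S k).tail (fun s hs => hS.2.2 k s (List.mem_of_mem_tail hs))
    rw [List.map_tail, ← hS.2.1 k] at h1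
    exact ih hq _ _ _ h1
  | load f q ih =>
    intro v st S hS
    change D.RepC (D.run q (D.iS (f (D.dS (D.iS v)))) st) _
    rw [D.dS_iS]
    exact ih hq _ _ _ hS
  | branch f q₁ q₂ ih₁ ih₂ =>
    intro v st S hS
    change D.RepC (if f (D.dS (D.iS v)) = true then D.run q₁ (D.iS v) st
      else D.run q₂ (D.iS v) st) (cond (f v) _ _)
    rw [D.dS_iS]
    cases hf : f v with
    | true => simpa using ih₁ hq.1 v st S hS
    | false => simpa using ih₂ hq.2 v st S hS
  | goto f =>
    intro v st S hS
    change D.RepC (D.iL (f (D.dS (D.iS v))) + 1, D.iS v, st) _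
    rw [D.dS_iS]
    exact ⟨rfl, rfl, hS⟩
  | halt =>
    intro v st S hS
    exact ⟨rfl, rfl, hS⟩

/-- the next configuration, halted configurations stay -/
def nxt (m : Λ → Turing.TM2.Stmt Γ Λ σ) (x : Turing.TM2.Cfg Γ Λ σ) : Turing.TM2.Cfg Γ Λ σ :=
  (Turing.TM2.step m x).getD x

theorem Data.stp_rep {m : Λ → Turing.TM2.Stmt Γ Λ σ} (hm : ∀ l, Ok D.good (m l)) {c : Code}
    {x : Turing.TM2.Cfg Γ Λ σ} (h : D.RepC c x) : D.RepC (D.stp m c) (nxt m x) := by
  obtain ⟨l, v, S⟩ := x
  obtain ⟨h1, h2, h3⟩ := h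
  cases l with
  | none =>
    have h1' : c.1 = 0 := h1
    unfold Data.stp
    rw [if_pos h1']
    exact ⟨h1, h2, h3⟩
  | some l =>
    have h1' : c.1 = D.iL l + 1 := h1
    have h2' : c.2.1 = D.iS v := h2
    unfold Data.stp
    rw [if_neg (by omega), h1', Nat.add_sub_cancel, D.dL_iL, h2']
    exact D.run_rep (m l) (hm l) v c.2.2 S h3

theorem Data.iter_rep {m : Λ → Turing.TM2.Stmt Γ Λ σ} (hm : ∀ l, Ok D.good (m l)) {c : Code}
    {x : Turing.TM2.Cfg Γ Λ σ} (h : D.RepC c x) (i : ℕ) :
    D.RepC ((D.stp m)^[i] c) ((nxt m)^[i] x) := by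
  induction i with
  | zero => exact h
  | succ i ih =>
    rw [Function.iterate_succ_apply', Function.iterate_succ_apply']
    exact D.stp_rep hm ih

theorem nxt_of_evals {m : Λ → Turing.TM2.Stmt Γ Λ σ} (x y : Turing.TM2.Cfg Γ Λ σ) (n : ℕ)
    (h : (flip bind (Turing.TM2.step m))^[n] (some x) = some y) : (nxt m)^[n] x = y := by
  induction n generalizing x with
  | zero => exact Option.some.inj h
  | succ n ih =>
    rw [Function.iterate_succ_apply] at h ⊢
    have h1 : (flip bind (Turing.TM2.step m)) (some x) = Turing.TM2.step m x := rfl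
    rw [h1] at h
    cases hx : Turing.TM2.step m x with
    | none =>
      rw [hx] at h
      have : ∀ n, (flip bind (Turing.TM2.step m))^[n] (none : Option (Turing.TM2.Cfg Γ Λ σ))
          = none := by
        intro n
        induction n with
        | zero => rfl
        | succ n ih => rw [Function.iterate_succ_apply]; exact ih
      rw [this] at h
      exact absurd h (by simp)
    | some z =>
      rw [hx] at h
      have h2 : nxt m x = z := by unfold nxt; rw [hx]; rfl
      rw [h2]
      exact ih z h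

theorem nxt_halt {m : Λ → Turing.TM2.Stmt Γ Λ σ} (y : Turing.TM2.Cfg Γ Λ σ) (hy : y.l = none)
    (n : ℕ) : (nxt m)^[n] y = y := by
  have h : nxt m y = y := by
    obtain ⟨l, v, S⟩ := y
    have hl : l = none := hy
    subst hl
    rfl
  exact Function.iterate_fixed h n

end

/-! ### Existence of codes -/

theorem exists_fin (A : Type) [Fintype A] (a0 : A) : ∃ (n : ℕ) (i : A → ℕ) (d : ℕ → A),
    (∀ v, i v ≤ n) ∧ (∀ v, d (i v) = v) ∧ ∀ m, n ≤ m → d m = d n := by
  classical
  refine ⟨Fintype.card A, fun v => (Fintype.equivFin A v : ℕ),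
    fun m => if h : m < Fintype.card A then (Fintype.equivFin A).symm ⟨m, h⟩ else a0,
    fun v => (Fintype.equivFin A v).2.le, fun v => ?_, fun m hm => ?_⟩
  · simp
  · dsimp only
    rw [dif_neg (by omega), dif_neg (by omega)]

theorem exists_data (K : Type) [Fintype K] (Γ : K → Type) (Λ σ : Type) [Fintype Λ] [Fintype σ]
    (l0 : Λ) (v0 : σ) (L : ∀ k, List (Γ k)) :
    ∃ D : Data K Γ Λ σ, ∀ k s, D.good k s ↔ s ∈ L k := by
  classical
  obtain ⟨nS, iS, dS, s1, s2, s3⟩ := exists_fin σ v0
  obtain ⟨nL, iL, dL, l1, l2, l3⟩ := exists_fin Λ l0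
  refine ⟨⟨Fintype.card K, fun k => (Fintype.equivFin K k : ℕ), fun k => (Fintype.equivFin K k).2,
    fun k k' h => (Fintype.equivFin K).injective (Fin.ext h), nS, iS, s1, dS, s2, s3, nL, iL, l1,
    dL, l2, l3, ∑ k, (L k).length, fun k s => (L k).idxOf s, fun k s => ?_,
    fun k n => (L k)[n]?, fun k s => s ∈ L k, fun k s hs => ?_, fun k n hn => ?_⟩, fun k s =>
    Iff.rfl⟩
  · exact (List.idxOf_le_length).trans
      (Finset.single_le_sum (f := fun k => (L k).length) (fun _ _ => Nat.zero_le _)
        (Finset.mem_univ k))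
  · exact List.getElem?_idxOf hs
  · have h1 : (L k).length ≤ ∑ k, (L k).length :=
      Finset.single_le_sum (f := fun k => (L k).length) (fun _ _ => Nat.zero_le _)
        (Finset.mem_univ k)
    rw [List.getElem?_eq_none (by omega), List.getElem?_eq_none (by omega)]

theorem Ok.mono {K : Type} {Γ : K → Type} {Λ σ : Type} {g g' : ∀ k, Γ k → Prop}
    (h : ∀ k s, g k s → g' k s) (q : Turing.TM2.Stmt Γ Λ σ) (hq : Ok g q) : Ok g' q := by
  induction q with
  | push k f q ih => exact ⟨fun v => h k _ (hq.1 v), ih hq.2⟩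
  | peek k f q ih => exact ih hq
  | pop k f q ih => exact ih hq
  | load f q ih => exact ih hq
  | branch f q₁ q₂ ih₁ ih₂ => exact ⟨ih₁ hq.1, ih₂ hq.2⟩
  | goto f => trivial
  | halt => trivial

theorem exists_ok {K : Type} [DecidableEq K] {Γ : K → Type} {Λ σ : Type} [Fintype σ]
    (q : Turing.TM2.Stmt Γ Λ σ) : ∃ L : ∀ k, List (Γ k), Ok (fun k s => s ∈ L k) q := by
  classical
  induction q with
  | push k f q ih =>
    obtain ⟨L, hL⟩ := ih
    refine ⟨Function.update L k ((Finset.univ.toList.map f) ++ L k), fun v => ?_, ?_⟩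
    · change f v ∈ Function.update L k ((Finset.univ.toList.map f) ++ L k) k
      rw [Function.update_self]
      exact List.mem_append_left _ (List.mem_map.2 ⟨v, by simp, rfl⟩)
    · refine Ok.mono (fun k' s hs => ?_) q hL
      change s ∈ Function.update L k ((Finset.univ.toList.map f) ++ L k) k'
      by_cases hk : k' = k
      · subst hk
        rw [Function.update_self]
        exact List.mem_append_right _ hs
      · rw [Function.update_of_ne hk]
        exact hs
  | peek k f q ih => exact ih
  | pop k f q ih => exact ih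
  | load f q ih => exact ih
  | branch f q₁ q₂ ih₁ ih₂ =>
    obtain ⟨L₁, h₁⟩ := ih₁
    obtain ⟨L₂, h₂⟩ := ih₂
    exact ⟨fun k => L₁ k ++ L₂ k, Ok.mono (fun k s hs => List.mem_append_left _ hs) q₁ h₁,
      Ok.mono (fun k s hs => List.mem_append_right _ hs) q₂ h₂⟩
  | goto f => exact ⟨fun _ => [], trivial⟩
  | halt => exact ⟨fun _ => [], trivial⟩

theorem poly_eval {α : Type} [Enc α] (p : Polynomial ℕ) {n : α → ℕ} (hn : PolyTime n) :
    PolyTime (fun a => p.eval (n a)) := by
  induction p using Polynomial.induction_on' with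
  | add p q hp hq =>
    simp only [Polynomial.eval_add]
    fun_prop
  | monomial k c =>
    simp only [Polynomial.eval_monomial]
    have h1 := PolyTime.pow hn k
    have h2 : PolyTime (fun _ : α => c) := PolyTime.const c
    exact PolyTime.mul h2 h1

end TM

variable {α β γ : Type} [Enc α] [Enc β] [Enc γ]

open TM in
/-- ST-1: a function computed by a TM2 machine in polynomial time is `PolyTime`. -/
theorem polyTime_of_TM {f : α → β} (h : Nonempty (Turing.TM2ComputableInPolyTime
    (enc : α → List Bool) (enc : β → List Bool) f)) : PolyTime f := by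
  classical
  obtain ⟨⟨⟨tm, iA, oA⟩, time, hout⟩⟩ := h
  letI := tm.kDecidableEq
  letI := tm.kFin
  letI := tm.ΛFin
  letI := tm.σFin
  letI := tm.Γk₀Fin
  choose L hL using fun l => exists_ok (tm.m l)
  obtain ⟨D, hD⟩ := exists_data tm.K tm.Γ tm.Λ tm.σ tm.main tm.initialState
    (Function.update (fun k => (Finset.univ : Finset tm.Λ).toList.flatMap fun l => L l k) tm.k₀
      ((Finset.univ : Finset tm.Λ).toList.flatMap (fun l => L l tm.k₀) ++
        (Finset.univ : Finset (tm.Γ tm.k₀)).toList))
  have hg0 : ∀ s : tm.Γ tm.k₀, D.good tm.k₀ s := by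
    intro s
    rw [hD, Function.update_self]
    exact List.mem_append_right _ (by simp)
  have hm : ∀ l, Ok D.good (tm.m l) := by
    intro l
    refine Ok.mono (fun k s hs => ?_) (tm.m l) (hL l)
    rw [hD]
    by_cases hk : k = tm.k₀
    · subst hk
      rw [Function.update_self]
      exact List.mem_append_left _ (List.mem_flatMap.2 ⟨l, by simp, hs⟩)
    · rw [Function.update_of_ne hk]
      exact List.mem_flatMap.2 ⟨l, by simp, hs⟩
  -- the initial code
  let g : α → Code := fun a => (D.iL tm.main + 1, D.iS tm.initialState,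
    (List.replicate D.nK ([] : List ℕ)).set (D.iK tm.k₀)
      ((enc a).map fun b => D.iG tm.k₀ (iA.symm b)))
  have hb : PolyTime (fun b : Bool => D.iG tm.k₀ (iA.symm b)) := by
    have h1 : PolyTime (fun b : Bool => b = true) := by fun_prop
    refine (PolyTime.ite' h1 (PolyTime.const (D.iG tm.k₀ (iA.symm true)))
      (PolyTime.const (D.iG tm.k₀ (iA.symm false)))).congr fun b => ?_
    cases b <;> simp
  have hw : PolyTime (fun a : α => enc a) :=
    PolyTime.wordToList' (PolyTime.toWord PolyTime.id)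
  have hgp : PolyTime g := by
    have h1 : PolyTime (fun a : α => (enc a).map fun b => D.iG tm.k₀ (iA.symm b)) := by
      refine PolyTime.map hw ?_
      exact hb.comp PolyTime.snd
    change PolyTime (fun a : α => (D.iL tm.main + 1, D.iS tm.initialState,
      (List.replicate D.nK ([] : List ℕ)).set (D.iK tm.k₀)
        ((enc a).map fun b => D.iG tm.k₀ (iA.symm b))))
    fun_prop
  have hn : PolyTime (fun a : α => time.eval (esz a)) := poly_eval time PolyTime.size
  have hit := D.iter_poly tm.m hn hgp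
  -- the output
  let dec1 : ℕ → Bool := fun c => match D.dG tm.k₁ c with
    | none => false
    | some s => oA s
  have hdec : PolyTime dec1 := finFun D.nG dec1 (fun i hi => by
    simp only [dec1, D.dG_const tm.k₁ i hi])
  have hF : PolyTime (fun a : α => Word.mk
      ((((D.stp tm.m)^[time.eval (esz a)] (g a)).2.2.getD (D.iK tm.k₁) []).map dec1)) := by
    have h1 : PolyTime (fun a : α =>
        (((D.stp tm.m)^[time.eval (esz a)] (g a)).2.2.getD (D.iK tm.k₁) [])) := by fun_prop
    have h2 : PolyTime (fun a : α =>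
        (((D.stp tm.m)^[time.eval (esz a)] (g a)).2.2.getD (D.iK tm.k₁) []).map dec1) :=
      PolyTime.map h1 (hdec.comp PolyTime.snd)
    fun_prop
  have key : ∀ a : α,
      (((D.stp tm.m)^[time.eval (esz a)] (g a)).2.2.getD (D.iK tm.k₁) []).map dec1
        = enc (f a) := by
    intro a
    obtain ⟨⟨n, hn⟩, hle⟩ := hout a
    have hle' : n ≤ time.eval (esz a) := hle
    -- the machine
    have e1 : (nxt tm.m)^[time.eval (esz a)] (Turing.initList tm ((enc a).map iA.invFun))
        = Turing.haltList tm ((enc (f a)).map oA.invFun) := by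
      obtain ⟨r, hr⟩ := Nat.exists_eq_add_of_le hle'
      rw [hr, add_comm, Function.iterate_add_apply]
      rw [nxt_of_evals _ _ n hn]
      exact nxt_halt _ rfl r
    have r0 : D.RepC (g a) (Turing.initList tm ((enc a).map iA.invFun)) := by
      refine ⟨rfl, rfl, ?_⟩
      have h0 : D.Rep (List.replicate D.nK ([] : List ℕ)) (fun k => ([] : List (tm.Γ k))) := by
        refine ⟨by simp, fun k => ?_, fun k s hs => by simp at hs⟩
        rw [List.getD_eq_getElem?_getD, List.getElem?_replicate, if_pos (D.iK_lt k)]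
        rfl
      have h1 := h0.set D tm.k₀ ((enc a).map iA.invFun) (fun s _ => hg0 s)
      rw [List.map_map] at h1
      have h2 : (Turing.initList tm ((enc a).map iA.invFun)).stk
          = Function.update (fun k => ([] : List (tm.Γ k))) tm.k₀ ((enc a).map iA.invFun) := by
        funext k
        by_cases hk : k = tm.k₀
        · subst hk
          simp [Turing.initList]
        · simp [Turing.initList, hk]
      rw [h2]
      exact h1
    have r1 := D.iter_rep hm r0 (time.eval (esz a))
    rw [e1] at r1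
    have r2 := r1.2.2.2.1 tm.k₁
    have r3 := r1.2.2.2.2 tm.k₁
    have h2 : (Turing.haltList tm ((enc (f a)).map oA.invFun)).stk tm.k₁
        = (enc (f a)).map oA.invFun := by
      simp [Turing.haltList]
    rw [h2] at r2 r3
    rw [r2, List.map_map, List.map_map]
    conv_rhs => rw [← List.map_id (enc (f a))]
    refine List.map_congr_left fun b hb => ?_
    have hgood := r3 (oA.invFun b) (List.mem_map.2 ⟨b, hb, rfl⟩)
    simp only [Function.comp, dec1, D.dG_iG _ _ hgood]
    exact oA.apply_symm_apply b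
  have hfin : PolyTime (fun a : α => Word.mk (enc (f a))) := hF.congr fun a => by rw [key a]
  obtain ⟨p, d, hp⟩ := hfin
  exact ⟨p, d, hp⟩

end Pool.Agent.Helper73.ETSP
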